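import Mathlib
import Pool.Agent.N238.VP.C
import Pool.Agent.H153R4.Chg
set_option autoImplicit false

/-!
# The Fourier extension inequality for the paraboloid in `ℝ³`, averaged over one slow parameter

For measurable `ω : ℝ → ℝ` with `|ω(t)| ≥ |t|^γ` for `|t| ≥ 1` let
`E_s f(ξ) = ∫_U f(x) exp(-i(x_1 ξ_1 + x_2 ξ_2 + |x|² ξ_3 + s ω(ξ_3) x_2²)) dx`.
Then `∫ ‖E_s f‖_{L^q(ℝ³)}^q dμ(s) ≤ C ‖f‖_{L^q(U)}^q` for `q > 2 + 2/(1 + αγ)` and every measure `μ`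
on a bounded interval with `μ([a, a + r]) ≤ A r^α`. The constant does not depend on `ω`.
Two special cases, for `α = 1`; note that `2 + 2/(1+γ)` tends to `3` as `γ → 1`:
* `ω = R^γ` on `[-R, R]`: the extension of the chirped functions `e^{-i s x_2²} f`, `|s| ≤ R^γ`,
  in the slab `|ξ_3| ≤ R`, uniformly in `R`;
* `ω(t) = |t|^γ`, `γ < 1`: perturbations of the paraboloid which vanish asymptotically.
-/

namespace Pool.Agent.Results.MP_5ab805_an.ChirpAverages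

open MeasureTheory Set Complex
open scoped ENNReal NNReal FourierTransform RealInnerProductSpace

/-- The perturbed extension operator: for `ξ = (ξ_1, ξ_2, ξ_3)`,
`E f(ξ) = ∫_U f(x) exp(-i(x_1 ξ_1 + x_2 ξ_2 + |x|² ξ_3 + θ(ξ_3) x_2²)) dx`. For `θ = 0` it is the
extension operator of the paraboloid. -/
noncomputable def ext (U : Set (Fin 2 → ℝ)) (θ : ℝ → ℝ) (f : (Fin 2 → ℝ) → ℂ)
    (ξ : (Fin 2 → ℝ) × ℝ) : ℂ :=
  ∫ x in U, f x * cexp (-I * ((x 0 * ξ.1 0 + x 1 * ξ.1 1 + (x 0 ^ 2 + x 1 ^ 2) * ξ.2 +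
    θ ξ.2 * x 1 ^ 2 : ℝ) : ℂ))

open Pool.Agent.H153R4 Pool.Agent.N238.VP in
lemma ext_eq (U : Set (Fin 2 → ℝ)) (hU : MeasurableSet U) (θ : ℝ → ℝ) (f : (Fin 2 → ℝ) → ℂ)
    (g : E 2 → ℂ) (hfg : ∀ᵐ x : Fin 2 → ℝ, U.indicator f x = g (WithLp.toLp 2 x))
    (ξ : (Fin 2 → ℝ) × ℝ) :
    ext U θ f ξ = 𝓕 (ch (Fin.cons (ξ.2 / (2 * Real.pi))
      (fun _ : Fin 1 => (ξ.2 + θ ξ.2) / (2 * Real.pi))) g)
        (WithLp.toLp 2 fun j => ξ.1 j / (2 * Real.pi)) := by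
  unfold ext
  have hpi : (2 * Real.pi) ≠ 0 := by positivity
  rw [← integral_indicator hU, Real.fourier_eq',
    ← (PiLp.volume_preserving_toLp (Fin 2)).integral_comp
      (MeasurableEquiv.toLp 2 (Fin 2 → ℝ)).measurableEmbedding]
  apply integral_congr_ae
  filter_upwards [hfg] with x hx
  have e1 : U.indicator (fun x => f x * cexp (-I * ((x 0 * ξ.1 0 + x 1 * ξ.1 1 +
      (x 0 ^ 2 + x 1 ^ 2) * ξ.2 + θ ξ.2 * x 1 ^ 2 : ℝ) : ℂ))) x =
      U.indicator f x * cexp (-I * ((x 0 * ξ.1 0 + x 1 * ξ.1 1 +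
      (x 0 ^ 2 + x 1 ^ 2) * ξ.2 + θ ξ.2 * x 1 ^ 2 : ℝ) : ℂ)) := by
    by_cases h : x ∈ U
    · rw [indicator_of_mem h, indicator_of_mem h]
    · rw [indicator_of_notMem h, indicator_of_notMem h, zero_mul]
  rw [e1, hx]
  simp only [ch, smul_eq_mul]
  have e2 : cexp (((-2 * Real.pi * ⟪(WithLp.toLp 2 x : E 2),
      (WithLp.toLp 2 fun j => ξ.1 j / (2 * Real.pi) : E 2)⟫ : ℝ) : ℂ) * I) *
      cexp (((-(2 * Real.pi * ∑ j, (Fin.cons (ξ.2 / (2 * Real.pi))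
        (fun _ : Fin 1 => (ξ.2 + θ ξ.2) / (2 * Real.pi)) : Fin 2 → ℝ) j * x j ^ 2) : ℝ) : ℂ) * I) =
      cexp (-I * ((x 0 * ξ.1 0 + x 1 * ξ.1 1 + (x 0 ^ 2 + x 1 ^ 2) * ξ.2 +
        θ ξ.2 * x 1 ^ 2 : ℝ) : ℂ)) := by
    rw [← Complex.exp_add]
    congr 1
    have a1 : (⟪(WithLp.toLp 2 x : E 2),
        (WithLp.toLp 2 fun j => ξ.1 j / (2 * Real.pi) : E 2)⟫ : ℝ) =
        (x 0 * ξ.1 0 + x 1 * ξ.1 1) / (2 * Real.pi) := by
      rw [PiLp.inner_apply, Fin.sum_univ_two]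
      simp only [RCLike.inner_apply, conj_trivial]
      field_simp
    have a2 : ∑ j, (Fin.cons (ξ.2 / (2 * Real.pi))
        (fun _ : Fin 1 => (ξ.2 + θ ξ.2) / (2 * Real.pi)) : Fin 2 → ℝ) j * x j ^ 2 =
        (ξ.2 * x 0 ^ 2 + (ξ.2 + θ ξ.2) * x 1 ^ 2) / (2 * Real.pi) := by
      rw [Fin.sum_univ_two]
      simp only [Fin.cons_zero, Fin.cons_one]
      field_simp
    rw [a1, a2]
    have a3 : -2 * Real.pi * ((x 0 * ξ.1 0 + x 1 * ξ.1 1) / (2 * Real.pi)) =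
        -(x 0 * ξ.1 0 + x 1 * ξ.1 1) := by
      field_simp
    have a4 : -(2 * Real.pi * ((ξ.2 * x 0 ^ 2 + (ξ.2 + θ ξ.2) * x 1 ^ 2) / (2 * Real.pi))) =
        -(ξ.2 * x 0 ^ 2 + (ξ.2 + θ ξ.2) * x 1 ^ 2) := by
      field_simp
    rw [a3, a4]
    push_cast
    ring
  rw [← e2]
  ring

lemma lint_scale {V : Type*} [NormedAddCommGroup V] [NormedSpace ℝ V] [MeasurableSpace V]
    [BorelSpace V] [FiniteDimensional ℝ V] (μ : Measure V) [μ.IsAddHaarMeasure] {F : V → ℝ≥0∞}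
    (hF : Measurable F) (r : ℝ) (hr : r ≠ 0) :
    ∫⁻ x, F (r • x) ∂μ = ENNReal.ofReal |(r ^ Module.finrank ℝ V)⁻¹| * ∫⁻ x, F x ∂μ := by
  have h1 := lintegral_map (μ := μ) hF (measurable_const_smul (α := V) r)
  rw [Measure.map_addHaar_smul μ hr, lintegral_smul_measure, smul_eq_mul] at h1
  exact h1.symm

open Pool.Agent.H153R4 Pool.Agent.N238.VP in
lemma inner_eq (q : ℝ) {g : E 2 → ℂ} (hg : Measurable g) {w : ℝ → ℝ} (hw : Measurable w) (s : ℝ) :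
    ∫⁻ ξ : (Fin 2 → ℝ) × ℝ, ‖𝓕 (ch (sw (m := 1) w ((2 * Real.pi)⁻¹ * ξ.2, fun _ => s)) g)
        ((2 * Real.pi)⁻¹ • (WithLp.toLp 2 ξ.1 : E 2))‖ₑ ^ q =
      ENNReal.ofReal ((2 * Real.pi) ^ 3) *
        ∫⁻ t, ∫⁻ z, ‖𝓕 (ch (sw (m := 1) w (t, fun _ => s)) g) z‖ₑ ^ q := by
  set F : ℝ × E 2 → ℝ≥0∞ := fun p => ‖𝓕 (ch (sw (m := 1) w (p.1, fun _ => s)) g) p.2‖ₑ ^ q with hF
  have hFm : Measurable F := by
    have h1 : Measurable fun t : ℝ => sw (m := 1) w (t, fun _ => s) :=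
      (sw_meas hw).comp (measurable_id.prodMk measurable_const)
    exact (Fch_meas h1 hg).enorm.pow_const q
  have hr : (2 * Real.pi)⁻¹ ≠ 0 := by positivity
  have hto : Measurable fun x : Fin 2 → ℝ => (WithLp.toLp 2 x : E 2) :=
    (PiLp.volume_preserving_toLp (Fin 2)).measurable
  have hm : Measurable fun ξ : (Fin 2 → ℝ) × ℝ =>
      F ((2 * Real.pi)⁻¹ * ξ.2, (2 * Real.pi)⁻¹ • (WithLp.toLp 2 ξ.1 : E 2)) :=
    hFm.comp ((measurable_snd.const_mul _).prodMk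
      ((hto.comp measurable_fst).const_smul ((2 * Real.pi)⁻¹)))
  change ∫⁻ ξ : (Fin 2 → ℝ) × ℝ,
      F ((2 * Real.pi)⁻¹ * ξ.2, (2 * Real.pi)⁻¹ • (WithLp.toLp 2 ξ.1 : E 2)) = _
  rw [Measure.volume_eq_prod, lintegral_prod_symm _ hm.aemeasurable]
  have h1 : ∀ t : ℝ, ∫⁻ x : Fin 2 → ℝ, F (t, (2 * Real.pi)⁻¹ • (WithLp.toLp 2 x : E 2)) =
      ENNReal.ofReal ((2 * Real.pi) ^ 2) * ∫⁻ z, F (t, z) := by
    intro t
    have hFt : Measurable fun z : E 2 => F (t, z) := hFm.comp (measurable_const.prodMk measurable_id)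
    have e1 := (PiLp.volume_preserving_toLp (Fin 2)).lintegral_comp
      (hFt.comp (measurable_const_smul (α := E 2) ((2 * Real.pi)⁻¹)))
    simp only [Function.comp_apply] at e1
    rw [e1, lint_scale volume hFt _ hr, finrank_euclideanSpace_fin]
    congr 2
    rw [inv_pow, inv_inv, abs_of_pos (by positivity)]
  simp only [h1]
  have hG : Measurable fun t : ℝ => ENNReal.ofReal ((2 * Real.pi) ^ 2) * ∫⁻ z, F (t, z) :=
    (hFm.lintegral_prod_right').const_mul _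
  have e2 := lint_scale (volume : Measure ℝ) hG _ hr
  simp only [smul_eq_mul, Module.finrank_self, pow_one, inv_inv] at e2
  rw [e2, lintegral_const_mul _ hFm.lintegral_prod_right', ← mul_assoc,
    ← ENNReal.ofReal_mul (abs_nonneg _), abs_of_pos (by positivity)]
  congr 2
  ring

open Pool.Agent.H153R4 Pool.Agent.N238.VP in
/-- Let `0 < α ≤ 1`, `γ > 0`, `q > 2 + 2/(1 + αγ)`. There is `C` such that for every measure `μ` on
`ℝ` with `μ([a, a + r]) ≤ A r^α` for all `a` and `0 < r ≤ 1`, every measurable `ω : ℝ → ℝ` with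
`|ω(t)| ≥ |t|^γ` for `|t| ≥ 1`, every measurable `U ⊆ [-1,1]²` and every `f` on `U`,
`∫_{[-L,L]} ‖E_s f‖_{L^q(ℝ³)}^q dμ(s) ≤ C ‖f‖_{L^q(U)}^q`, where
`E_s f(ξ) = ∫_U f(x) exp(-i(x_1 ξ_1 + x_2 ξ_2 + |x|² ξ_3 + s ω(ξ_3) x_2²)) dx`. -/
theorem result (α γ q L A : ℝ) (hα : 0 < α) (hγ : 0 < γ) (hq : 2 + 2 / (1 + α * γ) < q) :
    ∃ C : ℝ≥0, ∀ μ : Measure ℝ,
      (∀ a r : ℝ, 0 < r → r ≤ 1 → μ (Icc a (a + r)) ≤ ENNReal.ofReal (A * r ^ α)) →
      ∀ ω : ℝ → ℝ, Measurable ω → (∀ t, 1 ≤ |t| → |t| ^ γ ≤ |ω t|) →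
      ∀ U : Set (Fin 2 → ℝ), MeasurableSet U → U ⊆ Icc (-1) 1 →
      ∀ f : (Fin 2 → ℝ) → ℂ, AEStronglyMeasurable f (volume.restrict U) →
        ∫⁻ s in Icc (-L) L, (∫⁻ ξ : (Fin 2 → ℝ) × ℝ,
            ‖ext U (fun t => s * ω t) f ξ‖ₑ ^ q) ∂μ ≤
          C * ∫⁻ x in U, ‖f x‖ₑ ^ q := by
  have hpi : 0 < 2 * Real.pi := by positivity
  set c0 : ℝ := (2 * Real.pi) ^ (γ - 1) with hc0d
  have hc0 : 0 < c0 := by positivity
  set T0 : ℝ := max 1 (c0⁻¹ ^ (1 / γ)) with hT0d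
  have hT01 : 1 ≤ T0 := le_max_left _ _
  have hT02 : 1 ≤ c0 * T0 ^ γ := by
    have h1 : c0⁻¹ ≤ T0 ^ γ := by
      calc c0⁻¹ = (c0⁻¹ ^ (1 / γ)) ^ γ := by
            rw [← Real.rpow_mul (by positivity), one_div_mul_cancel hγ.ne', Real.rpow_one]
        _ ≤ T0 ^ γ := Real.rpow_le_rpow (by positivity) (le_max_right _ _) hγ.le
    calc (1 : ℝ) = c0 * c0⁻¹ := (mul_inv_cancel₀ hc0.ne').symm
      _ ≤ c0 * T0 ^ γ := by gcongr
  obtain ⟨C, hC, h⟩ := all 1 α γ c0 T0 q hα hγ hc0 hT01 hq (max L 1) (max A 1)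
    (le_max_right _ _) (lt_of_lt_of_le one_pos (le_max_right _ _))
  have hCf : ENNReal.ofReal ((2 * Real.pi) ^ 3) * C ≠ ⊤ :=
    (ENNReal.mul_lt_top ENNReal.ofReal_lt_top hC).ne
  refine ⟨(ENNReal.ofReal ((2 * Real.pi) ^ 3) * C).toNNReal, ?_⟩
  rw [ENNReal.coe_toNNReal hCf]
  intro μ hμ ω hω hωt U hU hUs f hf
  set w : ℝ → ℝ := fun t => ω (2 * Real.pi * t) / (2 * Real.pi) with hw
  have hwm : Measurable w := (hω.comp (measurable_const_mul _)).div_const _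
  have hpow : ∀ t, T0 ≤ |t| → c0 * |t| ^ γ ≤ |w t| := by
    intro t ht
    have ht1 : 1 ≤ |t| := hT01.trans ht
    have h2 : |2 * Real.pi * t| = 2 * Real.pi * |t| := by
      rw [abs_mul, abs_of_pos hpi]
    have h3 : 1 ≤ |2 * Real.pi * t| := by
      rw [h2]
      have : 1 ≤ 2 * Real.pi := by linarith [Real.pi_gt_three]
      nlinarith
    have h4 := hωt _ h3
    rw [hw]
    simp only
    rw [abs_div, abs_of_pos hpi, le_div_iff₀ hpi]
    refine le_trans (le_of_eq ?_) h4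
    rw [h2, Real.mul_rpow hpi.le (abs_nonneg _), hc0d, Real.rpow_sub_one hpi.ne']
    field_simp
  have hPer : Per c0 γ T0 w := by
    refine ⟨hwm, fun t ht => ?_, hpow⟩
    refine hT02.trans (le_trans ?_ (hpow t ht))
    gcongr
  obtain ⟨f', hf'm, hf'⟩ := hf
  rw [Filter.EventuallyEq, ae_restrict_iff' hU] at hf'
  set g : E 2 → ℂ := fun z => U.indicator f' z.ofLp with hg
  have hgm : Measurable g := (hf'm.measurable.indicator hU).comp ofLp_meas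
  have hgs : ∀ z, z ∉ cube (1 + 1) → g z = 0 := by
    intro z hz
    apply indicator_of_notMem
    intro h1
    apply hz
    intro j
    rw [abs_le]
    exact ⟨(hUs h1).1 j, (hUs h1).2 j⟩
  have hfg : ∀ᵐ x : Fin 2 → ℝ, U.indicator f x = g (WithLp.toLp 2 x) := by
    filter_upwards [hf'] with x h1
    rw [hg]
    simp only
    by_cases hx : x ∈ U
    · rw [indicator_of_mem hx, indicator_of_mem hx, h1 hx]
    · rw [indicator_of_notMem hx, indicator_of_notMem hx]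
  have hαγ : 0 < α * γ := mul_pos hα hγ
  have hq0 : 0 < q := by
    have : 0 < 2 / (1 + α * γ) := by positivity
    linarith
  have hgq : ∫⁻ z, ‖g z‖ₑ ^ q = ∫⁻ x in U, ‖f x‖ₑ ^ q := by
    have e1 := (PiLp.volume_preserving_toLp (Fin 2)).lintegral_comp_emb
      (MeasurableEquiv.toLp 2 (Fin 2 → ℝ)).measurableEmbedding (fun z : E 2 => ‖g z‖ₑ ^ q)
    rw [← e1, ← lintegral_indicator hU]
    apply lintegral_congr_ae
    filter_upwards [hfg] with x h1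
    rw [← h1]
    by_cases hx : x ∈ U
    · rw [indicator_of_mem hx, indicator_of_mem hx]
    · rw [indicator_of_notMem hx, indicator_of_notMem hx, enorm_zero,
        ENNReal.zero_rpow_of_pos hq0]
  -- the measure on `Fin 1 → ℝ`
  set cn : ℝ → (Fin 1 → ℝ) := fun s _ => s with hcn
  have hcnm : Measurable cn := by
    rw [measurable_pi_iff]
    intro j
    exact measurable_id
  set μ' : Measure (Fin 1 → ℝ) := μ.map cn with hμ'
  have hFr : Frost μ' (max A 1) α := by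
    intro a r hr0 hr1
    rw [hμ', Measure.map_apply hcnm measurableSet_Icc]
    have h1 : cn ⁻¹' Icc a (fun j => a j + r) = Icc (a 0) (a 0 + r) := by
      ext s
      simp only [hcn, mem_preimage, mem_Icc, Pi.le_def]
      constructor
      · rintro ⟨h1, h2⟩
        exact ⟨h1 0, h2 0⟩
      · rintro ⟨h1, h2⟩
        refine ⟨fun j => ?_, fun j => ?_⟩
        · rw [Subsingleton.elim j 0]
          exact h1
        · rw [Subsingleton.elim j 0]
          exact h2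
    rw [h1]
    refine (hμ (a 0) r hr0 hr1).trans (ENNReal.ofReal_le_ofReal ?_)
    gcongr
    exact le_max_left _ _
  have := hFr.locfin
  have key := h μ' hFr w hPer g hgm hgs
  rw [hgq] at key
  have hHm : Measurable fun p : ℝ × (Fin 1 → ℝ) => ∫⁻ x, ‖𝓕 (ch (sw w p) g) x‖ₑ ^ q :=
    ((Fch_meas (sw_meas hwm) hgm).enorm.pow_const q).lintegral_prod_right'
  have hFl : Measurable fun l : Fin 1 → ℝ => ∫⁻ t, ∫⁻ x, ‖𝓕 (ch (sw w (t, l)) g) x‖ₑ ^ q :=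
    hHm.lintegral_prod_left'
  have hIQ : IQ (nuD μ' (max L 1) univ) (sw w) q g =
      ∫⁻ s in Icc (-(max L 1)) (max L 1),
        (∫⁻ t, ∫⁻ x, ‖𝓕 (ch (sw w (t, cn s)) g) x‖ₑ ^ q) ∂μ := by
    unfold IQ nuD
    rw [Measure.restrict_univ, lintegral_prod_symm _ hHm.aemeasurable,
      ← lintegral_indicator measurableSet_Icc, hμ',
      lintegral_map (hFl.indicator measurableSet_Icc) hcnm, ← lintegral_indicator measurableSet_Icc]
    apply lintegral_congr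
    intro s
    have h1 : cn s ∈ Icc (fun _ : Fin 1 => -(max L 1)) (fun _ => max L 1) ↔
        s ∈ Icc (-(max L 1)) (max L 1) := by
      simp only [hcn, mem_Icc, Pi.le_def]
      constructor
      · rintro ⟨h1, h2⟩
        exact ⟨h1 0, h2 0⟩
      · rintro ⟨h1, h2⟩
        exact ⟨fun _ => h1, fun _ => h2⟩
    by_cases hs : s ∈ Icc (-(max L 1)) (max L 1)
    · rw [indicator_of_mem hs, indicator_of_mem (h1.2 hs)]
    · rw [indicator_of_notMem hs, indicator_of_notMem (fun hc => hs (h1.1 hc))]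
  have hext : ∀ s : ℝ, ∫⁻ ξ : (Fin 2 → ℝ) × ℝ, ‖ext U (fun t => s * ω t) f ξ‖ₑ ^ q =
      ENNReal.ofReal ((2 * Real.pi) ^ 3) *
        ∫⁻ t, ∫⁻ z, ‖𝓕 (ch (sw w (t, cn s)) g) z‖ₑ ^ q := by
    intro s
    rw [← inner_eq q hgm hwm s]
    apply lintegral_congr
    intro ξ
    rw [ext_eq U hU (fun t => s * ω t) f g hfg ξ]
    have hS : (Fin.cons (ξ.2 / (2 * Real.pi))
        (fun _ : Fin 1 => (ξ.2 + s * ω ξ.2) / (2 * Real.pi)) : Fin 2 → ℝ) =
        sw (m := 1) w ((2 * Real.pi)⁻¹ * ξ.2, fun _ => s) := by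
      unfold sw
      ext j
      refine Fin.cases ?_ (fun i => ?_) j
      · simp only [Fin.cons_zero]
        field_simp
      · simp only [Fin.cons_succ, hw]
        have e1 : 2 * Real.pi * ((2 * Real.pi)⁻¹ * ξ.2) = ξ.2 := by field_simp
        rw [e1]
        field_simp
    have hv : (WithLp.toLp 2 fun j => ξ.1 j / (2 * Real.pi) : E 2) =
        (2 * Real.pi)⁻¹ • (WithLp.toLp 2 ξ.1 : E 2) := by
      ext j
      simp only [PiLp.smul_apply, smul_eq_mul]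
      field_simp
    rw [hS, hv]
  simp only [hext]
  rw [lintegral_const_mul' _ _ ENNReal.ofReal_ne_top, mul_assoc]
  refine mul_le_mul' le_rfl (le_trans ?_ key)
  rw [hIQ]
  apply lintegral_mono_set
  apply Icc_subset_Icc
  · exact neg_le_neg (le_max_left _ _)
  · exact le_max_left _ _

end Pool.Agent.Results.MP_5ab805_an.ChirpAverages
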