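import Mathlib
import Pool.Agent.N248.LQ.G
set_option autoImplicit false

/-!
# The extension conjecture for the paraboloid in `ℝ³` in the sense of convolution operators

`ext U f ξ = ∫_U e^{-i Φ(x)·ξ} f(x) dx`, `Φ(x) = (x_1, x_2, x_1² + x_2²)`, `U ⊆ B(0,1/2)`. The
conjecture says that `‖ |ext U f|² ‖_{L^(q/2)(ℝ³)} ≤ C ‖f‖_{L^q(U)}²` for all `q > 3`. By Young's
inequality this implies that convolution with `|ext U f|²` maps `L^(q')(ℝ³)` to its dual `L^q(ℝ³)`
with norm at most `C ‖f‖_q²`. The theorem proves this consequence, in the full range `q > 3` of the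
conjecture and for all `f ∈ L^q(U)`.

It contains the following restricted forms of the conjecture.

* Small sumsets: `∫_B |ext U f|² ≤ C K^(1-1/q) |B|^(1-2/q) ‖f‖_q²` with `K = |B + B| / |B|`. (Without
  the factor `K^(1-1/q)` this is the conjecture.)
* Superlevel sets: every measurable subset `B` of `{|ext U f| ≥ λ}` whose additive energy
  `∫ |{y ∈ B : w - y ∈ B}|² dw` is at least `δ |B|³` satisfies the conjectured bound
  `|B| ≤ C δ^(-(q-1)/2) (‖f‖_q / λ)^q`.
-/

namespace Pool.Agent.Results.MP_5ab805_an.ConvolutionTests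

open MeasureTheory Set Metric Complex
open scoped ENNReal NNReal RealInnerProductSpace Pointwise

abbrev E (n : ℕ) := EuclideanSpace ℝ (Fin n)

/-- the paraboloid `x ↦ (x_1, x_2, x_1^2 + x_2^2)` -/
noncomputable def Phi (x : E 2) : E 3 := !₂[x 0, x 1, x 0 ^ 2 + x 1 ^ 2]

/-- the Fourier extension operator of the paraboloid over `U` -/
noncomputable def ext (U : Set (E 2)) (f : E 2 → ℂ) (ξ : E 3) : ℂ :=
  ∫ x in U, Complex.exp (-((⟪Phi x, ξ⟫ : ℝ) : ℂ) * I) * f x

/-- the norm of `f` in `L^q(U)` -/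
noncomputable def normU (q : ℝ) (U : Set (E 2)) (f : E 2 → ℂ) : ℝ≥0∞ :=
  eLpNorm f (ENNReal.ofReal q) (volume.restrict U)

/-- the norm of a nonnegative function `g` in `L^(q')(ℝ³)`, `q' = q/(q-1)` -/
noncomputable def dualNorm (q : ℝ) (g : E 3 → ℝ≥0∞) : ℝ≥0∞ :=
  (∫⁻ ξ, g ξ ^ (q / (q - 1))) ^ ((q - 1) / q)

/-- the additive energy `∫ |{y : y ∈ A, w - y ∈ B}|² dw` -/
noncomputable def addEnergy (A B : Set (E 3)) : ℝ≥0∞ :=
  ∫⁻ w, volume {y | y ∈ A ∧ w - y ∈ B} ^ 2

/-- The convolution with `|ext U f|²` maps `L^(q')` to `L^q`. -/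
def Convolution (q : ℝ) (C : ℝ≥0) (U : Set (E 2)) (f : E 2 → ℂ) : Prop :=
  ∀ g h : E 3 → ℝ≥0∞, Measurable g → Measurable h →
    ∫⁻ η, ∫⁻ ξ, ‖ext U f (ξ - η)‖ₑ ^ 2 * g η * h ξ ≤
      C * normU q U f ^ 2 * dualNorm q g * dualNorm q h

/-- The estimate for small sumsets. -/
def Sumsets (q : ℝ) (C : ℝ≥0) (U : Set (E 2)) (f : E 2 → ℂ) : Prop :=
  ∀ A B : Set (E 3), MeasurableSet A → MeasurableSet B →
    volume A ^ (1 / q) * ∫⁻ ξ in B, ‖ext U f ξ‖ₑ ^ 2 ≤
      C * normU q U f ^ 2 * volume (A + B) ^ (1 - 1 / q)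

/-- The estimate for subsets of superlevel sets with large additive energy. -/
def LargeEnergy (q : ℝ) (C : ℝ≥0) (U : Set (E 2)) (f : E 2 → ℂ) : Prop :=
  ∀ (lam : ℝ) (B : Set (E 3)), 0 ≤ lam → MeasurableSet B → (∀ ξ ∈ B, lam ≤ ‖ext U f ξ‖) →
    (∀ A : Set (E 3), MeasurableSet A →
      ENNReal.ofReal lam ^ 2 * addEnergy A B ^ (1 - 1 / q) ≤
        C * normU q U f ^ 2 * (volume A ^ (2 - 3 / q) * volume B ^ (1 - 2 / q))) ∧
    (∀ δ : ℝ≥0, volume B ≠ ∞ → δ * volume B ^ 3 ≤ addEnergy B B →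
      ENNReal.ofReal lam ^ 2 * (δ : ℝ≥0∞) ^ (1 - 1 / q) * volume B ^ (2 / q) ≤
        C * normU q U f ^ 2)

open Pool.Agent.N248.LQ Pool.Agent.N248.SD in
lemma ext_eq (U : Set (E 2)) (hU : MeasurableSet U) (f : E 2 → ℂ) (u : E 3) :
    ext U f u = W volume p3 (U.indicator f) u := by
  unfold ext W
  rw [← integral_indicator hU]
  refine integral_congr_ae (Filter.Eventually.of_forall fun x => ?_)
  simp only
  by_cases hx : x ∈ U
  · rw [indicator_of_mem hx, indicator_of_mem hx]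
    congr 1
    unfold Pool.Agent.R412.RT.ee
    congr 1
    have h1 : ⟪p3 x, u⟫ = -((2 * Real.pi)⁻¹ * ⟪Phi x, u⟫) := by
      unfold p3
      rw [inner_neg_left, real_inner_smul_left]
      rfl
    rw [h1]
    have hpi : (Real.pi : ℂ) ≠ 0 := by exact_mod_cast Real.pi_ne_zero
    push_cast
    field_simp
  · rw [indicator_of_notMem hx, indicator_of_notMem hx, mul_zero]

open Pool.Agent.N248.LQ Pool.Agent.N248.SD in
/-- **Theorem.** For every `q > 3` there is `C` such that for every measurable `U ⊆ B(0,1/2)` and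
every `f ∈ L^q(U)`: convolution with `|ext U f|²` maps `L^(q')(ℝ³)` to `L^q(ℝ³)` with norm at most
`C ‖f‖_q²`; and the estimates for small sumsets and for large additive energy hold. -/
theorem result (q : ℝ) (hq : 3 < q) :
    ∃ C : ℝ≥0, ∀ (U : Set (E 2)) (f : E 2 → ℂ), MeasurableSet U → U ⊆ ball 0 (1 / 2) →
      MemLp f (ENNReal.ofReal q) (volume.restrict U) →
      Convolution q C U f ∧ Sumsets q C U f ∧ LargeEnergy q C U f := by
  have hq0 : 0 < q := by linarith
  have hq1 : 0 < q - 1 := by linarith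
  obtain ⟨C, hC, hC0, hfull⟩ := full q hq
  refine ⟨C.toNNReal, ?_⟩
  intro U f hU hUb hf
  have hCc : ((C.toNNReal : ℝ≥0) : ℝ≥0∞) = C := ENNReal.coe_toNNReal hC
  have hUf : volume U ≠ ∞ := ((measure_mono hUb).trans_lt measure_ball_lt_top).ne
  have hfin : IsFiniteMeasure (volume.restrict U) := ⟨by
    rw [Measure.restrict_apply_univ]; exact hUf.lt_top⟩
  -- a measurable representative
  obtain ⟨f', hf'm, hff'⟩ := hf.1
  have hext : ∀ x, ext U f x = ext U f' x := by
    intro x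
    unfold ext
    refine integral_congr_ae ?_
    filter_upwards [hff'] with ξ hξ
    rw [hξ]
  have hf' : MemLp f' (ENNReal.ofReal q) (volume.restrict U) := (memLp_congr_ae hff').1 hf
  set φ : E 2 → ℂ := U.indicator f' with hφ
  have hφm : Measurable φ := hf'm.measurable.indicator hU
  have hφi : Integrable φ := by
    rw [hφ, integrable_indicator_iff hU]
    refine hf'.integrable ?_
    rw [← ENNReal.ofReal_one]
    exact ENNReal.ofReal_le_ofReal (by linarith)
  have hcoord : ∀ (x : E 2) (i : Fin 2), |x i| ≤ ‖x‖ := by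
    intro x i
    exact PiLp.norm_apply_le x i
  have hφs : ∀ x : E 2, (1 < |x 0| ∨ 1 < |x 1|) → φ x = 0 := by
    intro x hx
    rw [hφ]
    refine indicator_of_notMem (fun hxU => ?_) _
    have h1 : ‖x‖ < 1 / 2 := by simpa using hUb hxU
    rcases hx with hx | hx
    · linarith [hcoord x 0]
    · linarith [hcoord x 1]
  have hnorm : (∫⁻ x, ‖φ x‖ₑ ^ q) ^ (2 / q) = normU q U f ^ 2 := by
    have h1 : normU q U f = eLpNorm f' (ENNReal.ofReal q) (volume.restrict U) :=
      eLpNorm_congr_ae hff'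
    have hq' : ENNReal.ofReal q ≠ 0 := (ENNReal.ofReal_pos.2 hq0).ne'
    rw [h1, eLpNorm_eq_lintegral_rpow_enorm_toReal hq' ENNReal.ofReal_ne_top,
      ENNReal.toReal_ofReal hq0.le, ← ENNReal.rpow_natCast, ← ENNReal.rpow_mul]
    have h2 : ∫⁻ x, ‖φ x‖ₑ ^ q = ∫⁻ x in U, ‖f' x‖ₑ ^ q := by
      rw [← lintegral_indicator hU]
      refine lintegral_congr fun x => ?_
      by_cases hx : x ∈ U
      · rw [hφ, indicator_of_mem hx, indicator_of_mem hx]
      · rw [hφ, indicator_of_notMem hx, indicator_of_notMem hx, enorm_zero,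
          ENNReal.zero_rpow_of_pos hq0]
    rw [h2]
    congr 1
    push_cast
    ring
  have hEW : ∀ u, ext U f u = W volume p3 φ u := fun u => by rw [hext, ext_eq U hU f' u]
  have hWm : Measurable (W volume p3 φ) := W_meas volume p3 p3_meas φ hφm
  have hKm : Measurable fun u => ‖ext U f u‖ₑ ^ 2 := by
    simp_rw [hEW]
    exact hWm.enorm.pow_const 2
  set P : ℝ≥0∞ := C * normU q U f ^ 2 with hP
  have hmain : ∀ g h : E 3 → ℝ≥0∞, Measurable g → Measurable h →
      ∫⁻ y, ∫⁻ w, g y * h w * ‖ext U f (w - y)‖ₑ ^ 2 ≤ P * ((∫⁻ x, g x ^ (q / (q - 1))) ^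
        ((q - 1) / q) * (∫⁻ x, h x ^ (q / (q - 1))) ^ ((q - 1) / q)) := by
    intro g h hg hh
    have h1 := hfull φ g h hφm hφi hφs hg hh
    rw [hnorm] at h1
    simp_rw [hEW]
    exact h1
  -- the degenerate case
  have hdeg : P = 0 → ∀ u, ext U f u = 0 := by
    intro h0 u
    have h1 : normU q U f = 0 := by
      rcases mul_eq_zero.1 h0 with h | h
      · exact absurd h hC0
      · exact pow_eq_zero_iff (two_ne_zero) |>.1 h
    have hq' : ENNReal.ofReal q ≠ 0 := (ENNReal.ofReal_pos.2 hq0).ne'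
    have h2 : f =ᵐ[volume.restrict U] 0 := (eLpNorm_eq_zero_iff hf.1 hq').1 h1
    unfold ext
    rw [integral_eq_zero_of_ae]
    filter_upwards [h2] with x hx
    simp [hx]
  refine ⟨?_, ?_, ?_⟩
  · intro g h hg hh
    rw [hCc, ← hP]
    have h1 := hmain g h hg hh
    calc ∫⁻ η, ∫⁻ ξ, ‖ext U f (ξ - η)‖ₑ ^ 2 * g η * h ξ
        = ∫⁻ y, ∫⁻ w, g y * h w * ‖ext U f (w - y)‖ₑ ^ 2 := by
          refine lintegral_congr fun y => lintegral_congr fun w => ?_
          ring
      _ ≤ _ := h1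
      _ = P * dualNorm q g * dualNorm q h := by unfold dualNorm; ring
  · intro A B hA hB
    rw [hCc, ← hP]
    rcases eq_or_ne P 0 with hP0 | hP0
    · simp [hdeg hP0]
    · exact sumset _ hKm q (by linarith) P hP0 hmain A B hA hB
  · intro lam B hlam hB hlev
    rw [hCc, ← hP]
    have hen : ∀ A : Set (E 3), addEnergy A B = ∫⁻ w, rep A B w ^ 2 := fun A => rfl
    have hl : ∀ ξ ∈ B, ENNReal.ofReal lam ^ 2 ≤ ‖ext U f ξ‖ₑ ^ 2 := by
      intro ξ hξ
      refine pow_le_pow_left' ?_ 2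
      rw [← ofReal_norm]
      exact ENNReal.ofReal_le_ofReal (hlev ξ hξ)
    have h1q : 0 < 1 - 1 / q := by
      have : 1 / q < 1 := by rw [div_lt_one hq0]; linarith
      linarith
    have hpart1 : ∀ A : Set (E 3), MeasurableSet A →
        ENNReal.ofReal lam ^ 2 * addEnergy A B ^ (1 - 1 / q) ≤
          P * (volume A ^ (2 - 3 / q) * volume B ^ (1 - 2 / q)) := by
      intro A hA
      rcases eq_or_ne P 0 with hP0 | hP0
      · rcases B.eq_empty_or_nonempty with hBe | ⟨b₀, hb₀⟩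
        · have : addEnergy A B = 0 := by
            unfold addEnergy
            rw [hBe]
            simp
          rw [this, ENNReal.zero_rpow_of_pos h1q, mul_zero]
          exact zero_le
        · have h2 := hlev b₀ hb₀
          rw [hdeg hP0, norm_zero] at h2
          have h3 : lam = 0 := le_antisymm h2 hlam
          rw [h3, ENNReal.ofReal_zero, zero_pow two_ne_zero, zero_mul]
          exact zero_le
      · exact energyQ _ hKm q (by linarith) P hP0 hmain A B hA hB _ hl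
    refine ⟨hpart1, ?_⟩
    intro δ hBf hδ
    rcases eq_or_ne (volume B) 0 with h0 | h0
    · rw [h0, ENNReal.zero_rpow_of_pos (by positivity), mul_zero]
      exact zero_le
    have h1 := hpart1 B hB
    have hX0 : volume B ^ (3 - 5 / q) ≠ 0 := by
      rw [Ne, ENNReal.rpow_eq_zero_iff]
      push Not
      exact ⟨fun h => absurd h h0, fun h => absurd h hBf⟩
    have hXt : volume B ^ (3 - 5 / q) ≠ ∞ := ENNReal.rpow_ne_top_of_nonneg (by
      have : 5 / q ≤ 3 := by rw [div_le_iff₀ hq0]; linarith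
      linarith) hBf
    rw [← ENNReal.mul_le_mul_iff_left hX0 hXt]
    have e1 : volume B ^ (2 / q) * volume B ^ (3 - 5 / q) = (volume B ^ 3) ^ (1 - 1 / q) := by
      rw [← ENNReal.rpow_add _ _ h0 hBf, ← ENNReal.rpow_natCast, ← ENNReal.rpow_mul]
      congr 1
      push_cast
      ring
    have e2 : volume B ^ (2 - 3 / q) * volume B ^ (1 - 2 / q) = volume B ^ (3 - 5 / q) := by
      rw [← ENNReal.rpow_add _ _ h0 hBf]
      congr 1
      ring
    calc ENNReal.ofReal lam ^ 2 * (δ : ℝ≥0∞) ^ (1 - 1 / q) * volume B ^ (2 / q) *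
          volume B ^ (3 - 5 / q)
        = ENNReal.ofReal lam ^ 2 * ((δ : ℝ≥0∞) ^ (1 - 1 / q) *
          (volume B ^ 3) ^ (1 - 1 / q)) := by rw [mul_assoc, e1]; ring
      _ = ENNReal.ofReal lam ^ 2 * (δ * volume B ^ 3) ^ (1 - 1 / q) := by
          rw [ENNReal.mul_rpow_of_nonneg _ _ h1q.le]
      _ ≤ ENNReal.ofReal lam ^ 2 * addEnergy B B ^ (1 - 1 / q) :=
          mul_le_mul' le_rfl (ENNReal.rpow_le_rpow hδ h1q.le)
      _ ≤ _ := h1
      _ = _ := by rw [e2]

end Pool.Agent.Results.MP_5ab805_an.ConvolutionTests
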