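import Mathlib
import Pool.Agent.N248.LC.Eqv
set_option autoImplicit false

/-!
# The extension conjecture for the paraboloid in `ℝ³` on random sets of caps

Let `ext U f ξ = ∫_U e^{-i Φ(x)·ξ} f(x) dx`, `Φ(x) = (x_1, x_2, x_1² + x_2²)`, `U ⊆ B(0,1/2)`. For a
set `S` in the plane let `‖E‖_{S,q→p}` be the norm of the extension operator from `L^q(U ∩ S)` to
`L^p(B_R)`. Up to factors `R^ε` the extension conjecture says that `‖E‖_{U,3→3} ≤ C_ε R^ε`.

Let `S` be the union of a typical set of `k` among `N` given disjoint cells of measure at most `κ`.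
We show that, up to `(log R)⁴`, the norm `‖E‖_{S,q→p}` is the larger of two terms: the full norm
`‖E‖_{U,q→p}` times `(k/N)^(1-1/q)`, and the bound `(kκ)^(1/2-1/q) κ^(1/2-1/p) R^(1/p)` which square
root cancellation between the cells would give. This holds for all `q, p ≥ 2` and for all functions
`f ∈ L^q` supported in `S` at the same time. Both terms are necessary for squares of side `1/R`. It
follows that for `3 ≤ q ≤ 4`, and for all but a proportion `R^(-A)` of the sets of caps of density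
`R^(-(4-q)/(2(q-1)))`, the inequality `‖ext U f‖_{L^q(B_R)} ≤ C (log R)⁴ ‖f‖_{L^q(U)}` holds for all
`f` supported on these caps, and that every bound `‖E‖_{U,q→q} ≤ C_ε R^(a+ε)` is equivalent to the
bound `C_ε R^(a-σ(1-1/q)+ε)` for typical sets of caps of density `R^(-σ)`, if
`a ≥ σ/2 + 3/q - 1`.

The proof combines duality for the level sets, the sampling method of Maurey for the transforms of
measures, a union bound over all samples, concentration for sums over random sets, and an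
interpolation between the levels of `f`.
-/

namespace Pool.Agent.Results.MP_5ab805_an.RandomCapsLq

open MeasureTheory Set Metric Complex
open scoped ENNReal NNReal RealInnerProductSpace

abbrev E (n : ℕ) := EuclideanSpace ℝ (Fin n)

/-- the paraboloid `x ↦ (x_1, x_2, x_1^2 + x_2^2)` -/
noncomputable def Phi (x : E 2) : E 3 := !₂[x 0, x 1, x 0 ^ 2 + x 1 ^ 2]

/-- the Fourier extension operator of the paraboloid over `U` -/
noncomputable def ext (U : Set (E 2)) (f : E 2 → ℂ) (ξ : E 3) : ℂ :=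
  ∫ x in U, Complex.exp (-((⟪Phi x, ξ⟫ : ℝ) : ℂ) * I) * f x

/-- The norm of `ext U` from `L^q(U ∩ S)` to `L^p(B_R)`: the supremum of `‖ext U f‖_{L^p(B_R)}` over
the measurable functions `f` with `‖f‖_{L^q(U)} ≤ 1` which vanish off `S`. -/
noncomputable def opNorm (U S : Set (E 2)) (q p R : ℝ) : ℝ≥0∞ :=
  ⨆ (f : E 2 → ℂ)
    (_ : Measurable f ∧ (∀ x, x ∉ S → f x = 0) ∧
      eLpNorm f (ENNReal.ofReal q) (volume.restrict U) ≤ 1),
    eLpNorm (ext U f) (ENNReal.ofReal p) (volume.restrict (ball 0 R))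

/-- The cap with index `j`: a square of side `1/R`. The `(2R)^2` caps tile `[-1,1)^2`. -/
def cap (R : ℕ) (j : Fin 2 → Fin (2 * R)) : Set (E 2) :=
  {x | ∀ i, ((j i : ℕ) : ℝ) ≤ R * (x i + 1) ∧ R * (x i + 1) < (j i : ℕ) + 1}

/-- For all but a proportion `δ` of the sets of `k` caps the norm on their union is at most `X`. -/
def Typical (U : Set (E 2)) (R k : ℕ) (q p δ X : ℝ) : Prop :=
  ({I : Finset (Fin 2 → Fin (2 * R)) | I.card = k ∧
    ¬ opNorm U (⋃ j ∈ I, cap R j) q p R ≤ ENNReal.ofReal X}.ncard : ℝ) ≤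
      δ * (((2 * R) ^ 2).choose k : ℕ)

lemma Phi_eq (x : E 2) : Phi x = Pool.Agent.R412.RT.Phi x := by
  ext i
  have h0 : Pool.Agent.R412.RT.Phi x (0 : Fin 3) = x 0 := Pool.Agent.R412.RT.Phi_cast x 0
  have h1 : Pool.Agent.R412.RT.Phi x (1 : Fin 3) = x 1 := Pool.Agent.R412.RT.Phi_cast x 1
  have h2 : Pool.Agent.R412.RT.Phi x (2 : Fin 3) = ∑ i, x i ^ 2 := Pool.Agent.R412.RT.Phi_last x
  fin_cases i
  · exact h0.symm
  · exact h1.symm
  · refine Eq.trans ?_ h2.symm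
    rw [Fin.sum_univ_two]
    rfl

lemma cub_of_ball (U : Set (E 2)) (hU : U ⊆ ball 0 (1 / 2)) : U ⊆ Pool.Agent.N248.RR.cub 2 := by
  intro x hx i
  have h1 : ‖x‖ < 1 / 2 := by simpa using hU hx
  have h2 : |x i| ≤ ‖x‖ := PiLp.norm_apply_le x i
  linarith

open Pool.Agent.N248.RC Pool.Agent.N248.LC Pool.Agent.N248.RR in
lemma ext_eq (U : Set (E 2)) (hUm : MeasurableSet U) (hU : U ⊆ ball 0 (1 / 2)) (f : E 2 → ℂ) :
    ext U f = Eo (volume.restrict U) (ker (Pq 2 (-1))) f := by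
  ext ξ
  unfold ext Eo
  refine setIntegral_congr_fun hUm fun x hx => ?_
  rw [mul_comm]
  congr 1
  unfold ker Pq ex
  rw [indicator_of_mem (cub_of_ball U hU hx)]
  congr 1
  unfold sPhi
  rw [inner_smul_left, ← Phi_eq]
  simp

open Pool.Agent.N248.LC in
lemma opNorm_eq (U : Set (E 2)) (hUm : MeasurableSet U) (hU : U ⊆ ball 0 (1 / 2)) (S : Set (E 2))
    (q p R : ℝ) : opNorm U S q p R = opQ (volume.restrict U) (Pq 2 (-1)) S q p R := by
  unfold opNorm opQ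
  simp_rw [ext_eq U hUm hU]
  rfl

open Pool.Agent.N248.LC Pool.Agent.N248.RC in
open Classical in
lemma typical_iff (U : Set (E 2)) (hUm : MeasurableSet U) (hU : U ⊆ ball 0 (1 / 2)) (R k : ℕ)
    (q p δ X : ℝ) : Typical U R k q p δ X ↔
      (((Finset.powersetCard k (Finset.univ : Finset (Fin 2 → Fin (2 * R)))).filter (fun I =>
        ¬ opQ (volume.restrict U) (Pq 2 (-1)) (un (cell R) I) q p R ≤ ENNReal.ofReal X)).card : ℝ) ≤
      δ * ((((2 * R) ^ 2).choose k : ℕ) : ℝ) := by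
  unfold Typical
  have e : {I : Finset (Fin 2 → Fin (2 * R)) | I.card = k ∧
      ¬ opNorm U (⋃ j ∈ I, cap R j) q p R ≤ ENNReal.ofReal X} =
      (((Finset.powersetCard k (Finset.univ : Finset (Fin 2 → Fin (2 * R)))).filter (fun I =>
        ¬ opQ (volume.restrict U) (Pq 2 (-1)) (un (cell R) I) q p R ≤ ENNReal.ofReal X) :
          Finset (Finset (Fin 2 → Fin (2 * R)))) : Set (Finset (Fin 2 → Fin (2 * R)))) := by
    ext I
    rw [Finset.mem_coe, Finset.mem_filter, Finset.mem_powersetCard, mem_ofPred_eq,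
      opNorm_eq U hUm hU]
    constructor
    · rintro ⟨h1, h2⟩
      exact ⟨⟨Finset.subset_univ _, h1⟩, h2⟩
    · rintro ⟨⟨_, h1⟩, h2⟩
      exact ⟨h1, h2⟩
  rw [e, Set.ncard_coe_finset]

open Pool.Agent.N248.RC Pool.Agent.N248.LC in
lemma part_one (A B : ℝ) (hA : 0 ≤ A) (hB : 0 ≤ B) : ∃ C : ℝ, ∀ U : Set (E 2),
    MeasurableSet U → U ⊆ ball 0 (1 / 2) → ∀ R : ℝ, 2 ≤ R → ∀ κ : ℝ, R ^ (-B) ≤ κ →
      ∀ (ι : Type) (J : Finset ι) (θ : ι → Set (E 2)), (J.card : ℝ) ≤ R ^ B →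
      (∀ i ∈ J, MeasurableSet (θ i) ∧ volume (θ i) ≤ ENNReal.ofReal κ) →
      (J : Set ι).PairwiseDisjoint θ → ∀ k : ℕ, 1 ≤ k → k ≤ J.card →
      ({I : Finset ι | I ⊆ J ∧ I.card = k ∧ ¬ ∀ q p : ℝ, 2 ≤ q → 2 ≤ p →
        opNorm U (⋃ i ∈ I, θ i) q p R ≤ ENNReal.ofReal (C * Real.log R ^ 4) *
          (ENNReal.ofReal ((k / J.card) ^ (1 - 1 / q)) * opNorm U univ q p R +
            ENNReal.ofReal ((k * κ) ^ (1 / 2 - 1 / q) * κ ^ (1 / 2 - 1 / p) *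
              R ^ (1 / p)))}.ncard : ℝ) ≤ R ^ (-A) * (J.card.choose k : ℕ) := by
  classical
  obtain ⟨C, hC0, hC⟩ := para_genQ (n := 2) (-1) (by norm_num) A B hA hB
  refine ⟨C, ?_⟩
  intro U hUm hU R hR κ hκ ι J θ hJ hθ hd k hk hkJ
  have hUc := cub_of_ball U hU
  have hκ0 : 0 < κ := (Real.rpow_pos_of_pos (by linarith) _).trans_le hκ
  have h := hC U hUm hUc R hR κ hκ ι J k θ hk hkJ hJ (fun i hi => (hθ i hi).1) hd (fun i hi => by
    have h1 : (volume.restrict U) (θ i) ≤ ENNReal.ofReal κ :=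
      (Measure.restrict_apply_le _ _).trans (hθ i hi).2
    exact ENNReal.toReal_le_of_le_ofReal hκ0.le h1)
  refine le_trans ?_ h
  refine Nat.cast_le.2 ?_
  refine le_trans (Set.ncard_le_ncard (fun I hI => ?_) (Finset.finite_toSet _))
    (Set.ncard_coe_finset _).le
  rw [Finset.mem_coe, Finset.mem_filter, Finset.mem_powersetCard]
  refine ⟨⟨hI.1, hI.2.1⟩, fun hgood => hI.2.2 fun q p hq hp => ?_⟩
  have hfin : IsFiniteMeasure ((volume : Measure (E 2)).restrict U) := mU_fin U hUc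
  rw [opNorm_eq U hUm hU, opNorm_eq U hUm hU, mul_assoc _ (κ ^ (1 / 2 - 1 / p))]
  exact GQ_full (volume.restrict U) (Pq 2 (-1)) (Pq_meas _) C R κ J.card k hC0
    (Nat.cast_nonneg _) (Nat.cast_nonneg _) hκ0.le hR _ hgood q p hq hp

open Pool.Agent.N248.RC Pool.Agent.N248.LC in
/-- **The extension conjecture for the paraboloid in `ℝ³` on random sets of caps.** Here `U` is any
measurable subset of `B(0,1/2)` and the constants `C`, `c`, `T` in (1)-(4) do not depend on `U`.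

(1) For all `A, B` there is `C` such that for `R ≥ 2` and any family of at most `R^B` pairwise
disjoint measurable cells `θ_i`, `i ∈ J`, of measure at most `κ`, where `κ ≥ R^(-B)`: for all but a
proportion `R^(-A)` of the sets `I` of `k` cells, with `S = ⋃_{i ∈ I} θ_i`, and for all `q, p ≥ 2`,
`‖E‖_{S,q→p} ≤ C (log R)⁴ ((k/N)^(1-1/q) ‖E‖_{U,q→p} + (kκ)^(1/2-1/q) κ^(1/2-1/p) R^(1/p))`, where
`N = |J|` and the norms are those from `L^q(U ∩ S)` and `L^q(U)` to `L^p(B_R)`.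

(2) Conversely `‖E‖_{S,q→p} ≥ c (k/R²)^(1/2-1/q) R^(3/p-1)` for the unions `S` of any `k ≥ 1` caps
in `U` (this is the second term of (1) for `κ = R^(-2)`), and

(3) if `‖E‖_{S,q→p} ≤ X` for all but a proportion `δ` of the sets of `k` among the `4R²` caps, then
`(k/(4R²))^(1-1/q) ‖E‖_{U,q→p} ≤ X + T δ R⁵`.

(4) Let `2 ≤ q ≤ 4`. For all but a proportion `R^(-A)` of the sets of `k` caps
`‖E‖_{S,q→q} ≤ C (log R)⁴ ((k/R²)^(1-1/q) R^(2/q-1/2) + (k/R²)^(1/2-1/q) R^(3/q-1))`; hence if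
`q ≥ 3` and `k ≤ R^(2-(4-q)/(2(q-1)))`, for all but a proportion `R^(-A)` of the sets of `k` caps
`‖ext U f‖_{L^q(B_R)} ≤ C (log R)⁴ ‖f‖_{L^q(U)}` for all `f` supported on the caps.

(5) Let `q ≥ 2`, `0 ≤ σ ≤ 2` and `a ≥ σ/2 + 3/q - 1`. Then the bound
`‖E‖_{U,q→q} ≤ C_ε R^(a+ε)` holds if and only if, for each `A`, `‖E‖_{S,q→q} ≤
C_{ε,A} R^(a-σ(1-1/q)+ε)` for all but a proportion `R^(-A)` of the sets of `⌈R^(2-σ)⌉` caps. -/
theorem result :
    (∀ A B : ℝ, 0 ≤ A → 0 ≤ B → ∃ C : ℝ, ∀ U : Set (E 2), MeasurableSet U → U ⊆ ball 0 (1 / 2) →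
      ∀ R : ℝ, 2 ≤ R → ∀ κ : ℝ, R ^ (-B) ≤ κ →
      ∀ (ι : Type) (J : Finset ι) (θ : ι → Set (E 2)), (J.card : ℝ) ≤ R ^ B →
      (∀ i ∈ J, MeasurableSet (θ i) ∧ volume (θ i) ≤ ENNReal.ofReal κ) →
      (J : Set ι).PairwiseDisjoint θ → ∀ k : ℕ, 1 ≤ k → k ≤ J.card →
      ({I : Finset ι | I ⊆ J ∧ I.card = k ∧ ¬ ∀ q p : ℝ, 2 ≤ q → 2 ≤ p →
        opNorm U (⋃ i ∈ I, θ i) q p R ≤ ENNReal.ofReal (C * Real.log R ^ 4) *
          (ENNReal.ofReal ((k / J.card) ^ (1 - 1 / q)) * opNorm U univ q p R +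
            ENNReal.ofReal ((k * κ) ^ (1 / 2 - 1 / q) * κ ^ (1 / 2 - 1 / p) *
              R ^ (1 / p)))}.ncard : ℝ) ≤ R ^ (-A) * (J.card.choose k : ℕ)) ∧
    (∃ c : ℝ, 0 < c ∧ ∀ U : Set (E 2), MeasurableSet U → U ⊆ ball 0 (1 / 2) → ∀ R : ℕ, 1 ≤ R →
      ∀ I : Finset (Fin 2 → Fin (2 * R)), I.Nonempty → (∀ j ∈ I, cap R j ⊆ U) →
      ∀ q p : ℝ, 2 ≤ q → 2 ≤ p →
        ENNReal.ofReal (c * ((I.card / (R : ℝ) ^ 2) ^ (1 / 2 - 1 / q) * (R : ℝ) ^ (3 / p - 1))) ≤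
          opNorm U (⋃ j ∈ I, cap R j) q p R) ∧
    (∃ T : ℝ, 0 ≤ T ∧ ∀ U : Set (E 2), MeasurableSet U → U ⊆ ball 0 (1 / 2) → ∀ R k : ℕ, 1 ≤ R →
      1 ≤ k → k ≤ (2 * R) ^ 2 → ∀ q p : ℝ, 2 ≤ q → 2 ≤ p → ∀ X δ : ℝ, 0 ≤ X → 0 ≤ δ →
      Typical U R k q p δ X →
        ENNReal.ofReal (((k : ℝ) / (2 * R) ^ 2) ^ (1 - 1 / q)) * opNorm U univ q p R ≤
          ENNReal.ofReal (X + T * δ * (R : ℝ) ^ (5 : ℝ))) ∧
    (∀ A : ℝ, 0 ≤ A → ∃ C : ℝ, ∀ U : Set (E 2), MeasurableSet U → U ⊆ ball 0 (1 / 2) →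
      ∀ R k : ℕ, 2 ≤ R → 1 ≤ k → k ≤ (2 * R) ^ 2 →
      (∀ q : ℝ, 2 ≤ q → q ≤ 4 → Typical U R k q q ((R : ℝ) ^ (-A)) (C * Real.log R ^ 4 *
        ((k / (R : ℝ) ^ 2) ^ (1 - 1 / q) * (R : ℝ) ^ (2 / q - 1 / 2) +
          (k / (R : ℝ) ^ 2) ^ (1 / 2 - 1 / q) * (R : ℝ) ^ (3 / q - 1)))) ∧
      (∀ q : ℝ, 3 ≤ q → q ≤ 4 → (k : ℝ) ≤ (R : ℝ) ^ (2 - (4 - q) / (2 * (q - 1))) →
        Typical U R k q q ((R : ℝ) ^ (-A)) (C * Real.log R ^ 4))) ∧
    (∀ U : Set (E 2), MeasurableSet U → U ⊆ ball 0 (1 / 2) → ∀ q σ a : ℝ, 2 ≤ q → 0 ≤ σ → σ ≤ 2 →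
      σ / 2 + 3 / q - 1 ≤ a →
      ((∀ ε : ℝ, 0 < ε → ∃ C : ℝ, ∀ R : ℕ, 2 ≤ R →
        opNorm U univ q q R ≤ ENNReal.ofReal (C * (R : ℝ) ^ (a + ε))) ↔
      ∀ ε : ℝ, 0 < ε → ∀ A : ℝ, 0 ≤ A → ∃ C : ℝ, ∀ R : ℕ, 2 ≤ R →
        Typical U R ⌈(R : ℝ) ^ (2 - σ)⌉₊ q q ((R : ℝ) ^ (-A))
          (C * (R : ℝ) ^ (a - σ * (1 - 1 / q) + ε)))) := by
  classical
  refine ⟨fun A B hA hB => part_one A B hA hB, ?_, ?_, ?_, ?_⟩
  · obtain ⟨c, hc0, hc⟩ := para_sqrtQ 2 (-1)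
    refine ⟨c, hc0, fun U hUm hU R hR I hne hI q p hq hp => ?_⟩
    have hR0 : (0 : ℝ) < R := by exact_mod_cast hR
    rw [opNorm_eq U hUm hU]
    refine le_trans (le_of_eq ?_) (hc U hUm (cub_of_ball U hU) R hR I hne hI q p hq hp)
    have e1 : (I.card : ℝ) * (R : ℝ) ^ (-((2 : ℕ) : ℝ)) = I.card / (R : ℝ) ^ 2 := by
      rw [Real.rpow_neg hR0.le, Real.rpow_natCast, div_eq_mul_inv]
    have e2 : (((2 : ℕ) : ℝ) + 1) / p - ((2 : ℕ) : ℝ) / 2 = 3 / p - 1 := by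
      push_cast
      norm_num
    rw [e1, e2]
  · obtain ⟨T, hT0, hT⟩ := caps_lower (-1)
    refine ⟨T, hT0, fun U hUm hU R k hR hk hkN q p hq hp X δ hX hδ hty => ?_⟩
    rw [opNorm_eq U hUm hU]
    exact hT U hUm (cub_of_ball U hU) R hR k hk hkN q p hq hp X δ hX hδ
      ((typical_iff U hUm hU R k q p δ X).1 hty)
  · intro A hA
    obtain ⟨C, hC0, hC⟩ := caps_uncond (-1) (by norm_num) A hA
    have key : ∀ U : Set (E 2), MeasurableSet U → U ⊆ ball 0 (1 / 2) →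
        ∀ R k : ℕ, 2 ≤ R → 1 ≤ k → k ≤ (2 * R) ^ 2 → ∀ q : ℝ, 2 ≤ q → q ≤ 4 → ∀ X : ℝ,
        C * Real.log R ^ 4 *
          ((k / (R : ℝ) ^ 2) ^ (1 - 1 / q) * (R : ℝ) ^ (2 / q - 1 / 2) +
            (k / (R : ℝ) ^ 2) ^ (1 / 2 - 1 / q) * (R : ℝ) ^ (3 / q - 1)) ≤ X →
        Typical U R k q q ((R : ℝ) ^ (-A)) X := by
      intro U hUm hU R k hR hk hkN q hq hq4 X hX
      rw [typical_iff U hUm hU]
      refine le_trans (Nat.cast_le.2 (Finset.card_le_card ?_))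
        (hC U hUm (cub_of_ball U hU) R hR k hk hkN)
      intro I hI
      rw [Finset.mem_filter] at hI ⊢
      exact ⟨hI.1, fun hgood => hI.2 ((hgood q hq hq4).trans (ENNReal.ofReal_le_ofReal hX))⟩
    refine ⟨2 * C, fun U hUm hU R k hR hk hkN => ⟨fun q hq hq4 => ?_, fun q hq hq4 hkR => ?_⟩⟩
    · refine key U hUm hU R k hR hk hkN q hq hq4 _ ?_
      have hlog : 0 ≤ Real.log R := Real.log_nonneg (by exact_mod_cast (by omega : 1 ≤ R))
      refine mul_le_mul_of_nonneg_right (mul_le_mul_of_nonneg_right (by linarith) (by positivity))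
        (by positivity)
    · refine key U hUm hU R k hR hk hkN q (by linarith) hq4 _ ?_
      have hR1 : (1 : ℝ) ≤ R := by exact_mod_cast (by omega : 1 ≤ R)
      have hR0 : (0 : ℝ) < R := by linarith
      have hlog : 0 ≤ Real.log R := Real.log_nonneg hR1
      have h1 := small_density (R : ℝ) (k / (R : ℝ) ^ 2) q hR1 (by positivity) hq hq4 (by
        rw [div_le_iff₀ (by positivity), ← Real.rpow_natCast (R : ℝ) 2, ← Real.rpow_add hR0]
        refine hkR.trans (le_of_eq ?_)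
        congr 1
        push_cast
        ring)
      calc _ ≤ C * Real.log R ^ 4 * 2 := mul_le_mul_of_nonneg_left h1 (by positivity)
        _ = _ := by ring
  · intro U hUm hU q σ a hq hσ hσ2 ha
    have hUc := cub_of_ball U hU
    have hnc : ∀ R : ℕ, ⌈(R : ℝ) ^ (2 - σ)⌉₊ = nc 2 σ R := by
      intro R
      unfold nc
      push_cast
      rfl
    simp_rw [opNorm_eq U hUm hU, typical_iff U hUm hU, hnc]
    constructor
    · intro h ε hε A hA
      exact fwdQ (-1) (by norm_num) U hUm hUc q hq σ a hσ hσ2 ha h ε hε A hA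
    · intro h ε hε
      obtain ⟨C, hC⟩ := h ε hε 10 (by norm_num)
      exact bwdQ (-1) U hUm hUc q hq σ a hσ hσ2 ha ε hε C hC

end Pool.Agent.Results.MP_5ab805_an.RandomCapsLq
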