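import Mathlib
import Pool.Agent.N248.RL.U
import Pool.Agent.N248.RL.X
set_option autoImplicit false

/-!
# The extension conjecture for the paraboloid in `ℝ³` and random regions

Let `ext U f ξ = ∫_U e^{-i Φ(x)·ξ} f(x) dx`, `Φ(x) = (x_1, x_2, x_1² + x_2²)`, `U ⊆ B(0,1/2)`. Choose
the lattice unit cubes at random, independently, the cube `j + [0,1)³` with a probability comparable
to `(1 + |j|)^{-a}`, `0 < a ≤ 1`, and let `Ω` be the union of the chosen cubes: a random region of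
density `|ξ|^{-a}`, of infinite volume.

**Theorem.** Let `2 ≤ s ≤ ∞` and `p > 2`. The following are equivalent:

(i) the local estimate `∫_{B_R} |ext U f|^p ≤ C_ε R^ε ‖f‖_{L^s(U)}^p` for all `ε > 0`, `R ≥ 1`;

(ii) for every `0 < a ≤ 1` and almost every random region `Ω` of density `|ξ|^{-a}`, `ext` is bounded
from `L^s(U)` to `L^q(Ω)` for all `q > p - a (p - 2)`;

(iii) for arbitrarily small `a > 0` there are random regions of density `|ξ|^{-a}` for which `ext` is
almost surely bounded from `L^s(U)` to `L^p(Ω)`.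

If `ext` is bounded from `L^s(U)` to `L^q(ℝ³)` for all `q > p` then (i) holds. For `s = ∞` and `p = 3`
the statement (i) is the local form of the extension conjecture for bounded functions; the exponents
`q > 3 - a` in (ii) are sharp for every `a`. For `p = 4` nothing has to be assumed: from `L²(U)` the
operator is bounded for `q > 4 - 2 a` and unbounded for `q < 4 - 2 a`. In particular for `a = 1/2` and
almost every `Ω` the inequality `‖ext U f‖_{L^q(Ω)} ≤ C ‖f‖_{L^q(U)}` holds in the full range `q > 3` of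
the extension conjecture, even with the norm of `f` in `L²(U)`; and for `a = 1` it holds for all
`q > 2`, the range of (ii).

The proof counts the unit cubes in which `|ext U f| ≥ λ` for all `f` at the same time: the number of
the functions which have to be distinguished is at most `exp (C λ^{-2} log (R/λ))` by the dual Sudakov
inequality, and in the region `Ω` far away from the origin almost orthogonality takes over.
-/

namespace Pool.Agent.Results.MP_5ab805_an.RandomRegions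

open MeasureTheory ProbabilityTheory Set Metric Complex
open scoped ENNReal NNReal RealInnerProductSpace

abbrev E (n : ℕ) := EuclideanSpace ℝ (Fin n)

/-- the paraboloid `x ↦ (x_1, x_2, x_1^2 + x_2^2)` -/
noncomputable def Phi (x : E 2) : E 3 := !₂[x 0, x 1, x 0 ^ 2 + x 1 ^ 2]

/-- the Fourier extension operator of the paraboloid over `U` -/
noncomputable def ext (U : Set (E 2)) (f : E 2 → ℂ) (ξ : E 3) : ℂ :=
  ∫ x in U, Complex.exp (-((⟪Phi x, ξ⟫ : ℝ) : ℂ) * I) * f x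

/-- the unit cube `j + [0,1)³` -/
def cube (j : Fin 3 → ℤ) : Set (E 3) := {ξ | ∀ i, (j i : ℝ) ≤ ξ i ∧ ξ i < j i + 1}

/-- The independent events `A j` (the cube `j` is chosen) of probability comparable to
`(1 + |j|)^(-a)`. -/
structure RandomCubes {Ω : Type} [MeasurableSpace Ω] (P : Measure Ω)
    (A : (Fin 3 → ℤ) → Set Ω) (a : ℝ) : Prop where
  meas : ∀ j, MeasurableSet (A j)
  indep : iIndepSet A P
  low : ∃ c : ℝ, 0 < c ∧ ∀ j, ENNReal.ofReal (c * (1 + ‖j‖) ^ (-a)) ≤ P (A j)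
  up : ∃ c : ℝ, ∀ j, P (A j) ≤ ENNReal.ofReal (c * (1 + ‖j‖) ^ (-a))

/-- the union of the chosen cubes -/
def region {Ω : Type} (A : (Fin 3 → ℤ) → Set Ω) (ω : Ω) : Set (E 3) :=
  ⋃ j ∈ {j | ω ∈ A j}, cube j

/-- `ext U` is bounded from `L^s(U)` to `L^q(W)`. -/
def Bounded (U : Set (E 2)) (s : ℝ≥0∞) (q : ℝ) (W : Set (E 3)) : Prop :=
  ∃ C : ℝ≥0, ∀ f : E 2 → ℂ, MemLp f s (volume.restrict U) →
    ∫⁻ ξ in W, ‖ext U f ξ‖ₑ ^ q ≤ C * eLpNorm f s (volume.restrict U) ^ q

/-- The local estimate: for all `ε > 0` there is `C` with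
`∫_{B_R} |ext U f|^p ≤ C R^ε ‖f‖_{L^s(U)}^p` for all `R ≥ 1`. -/
def Local (U : Set (E 2)) (s : ℝ≥0∞) (p : ℝ) : Prop :=
  ∀ ε : ℝ, 0 < ε → ∃ C : ℝ, ∀ R : ℝ, 1 ≤ R → ∀ f : E 2 → ℂ, MemLp f s (volume.restrict U) →
    ∫⁻ ξ in ball 0 R, ‖ext U f ξ‖ₑ ^ p ≤
      ENNReal.ofReal (C * R ^ ε) * eLpNorm f s (volume.restrict U) ^ p

lemma Phi_eq (x : E 2) : Phi x = Pool.Agent.R412.RT.Phi x := by
  ext i
  have h0 : Pool.Agent.R412.RT.Phi x (0 : Fin 3) = x 0 := Pool.Agent.R412.RT.Phi_cast x 0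
  have h1 : Pool.Agent.R412.RT.Phi x (1 : Fin 3) = x 1 := Pool.Agent.R412.RT.Phi_cast x 1
  have h2 : Pool.Agent.R412.RT.Phi x (2 : Fin 3) = ∑ i, x i ^ 2 := Pool.Agent.R412.RT.Phi_last x
  fin_cases i
  · exact h0.symm
  · exact h1.symm
  · refine Eq.trans ?_ h2.symm
    rw [Fin.sum_univ_two]
    rfl

lemma ext_eq (U : Set (E 2)) (f : E 2 → ℂ) (ξ : E 3) :
    ext U f ξ = ∫ x in U, Pool.Agent.N248.RR.ex (-1 * ⟪Pool.Agent.R412.RT.Phi x, ξ⟫) * f x := by
  unfold ext Pool.Agent.N248.RR.ex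
  simp_rw [Phi_eq]
  push_cast
  simp_rw [neg_one_mul]

lemma bdd_iff (U : Set (E 2)) (s : ℝ≥0∞) (q : ℝ) (W : Set (E 3)) :
    Bounded U s q W ↔ Pool.Agent.N248.RR.Bdd (-1) U s q W := by
  unfold Bounded Pool.Agent.N248.RR.Bdd
  simp_rw [ext_eq]

open Pool.Agent.N248.RL in
lemma local_iff (U : Set (E 2)) (s : ℝ≥0∞) (p : ℝ) : Local U s p ↔ LocBdd (-1) U s p := by
  unfold Local LocBdd
  simp_rw [ext_eq]
  constructor
  · intro h ε hε
    obtain ⟨C, hC⟩ := h ε hε
    refine ⟨max C 0, le_max_right _ _, fun R hR f hf => (hC R hR f hf).trans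
      (mul_le_mul' (ENNReal.ofReal_le_ofReal ?_) le_rfl)⟩
    exact mul_le_mul_of_nonneg_right (le_max_left _ _) (Real.rpow_nonneg (by linarith) _)
  · intro h ε hε
    obtain ⟨C, hC0, hC⟩ := h ε hε
    exact ⟨C, hC⟩

lemma cubes_iff {Ω : Type} [MeasurableSpace Ω] {P : Measure Ω}
    {A : (Fin 3 → ℤ) → Set Ω} {a : ℝ} : RandomCubes P A a ↔ Pool.Agent.N248.RR.RC P A a :=
  ⟨fun h => ⟨h.meas, h.indep, h.low, h.up⟩, fun h => ⟨h.meas, h.indep, h.low, h.up⟩⟩

/-- **Theorem.** Let `U ⊆ B(0,1/2)` be measurable with nonempty interior.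

(1) Let `2 ≤ s ≤ ∞` and `p > 2`. If `ext U` is bounded from `L^s(U)` to `L^q(ℝ³)` for all `q > p`, then
the local estimate `∫_{B_R} |ext U f|^p ≤ C_ε R^ε ‖f‖_{L^s(U)}^p` holds. The following are equivalent:
this local estimate; for every `0 < a ≤ 1` and every random choice of unit cubes with probabilities
comparable to `(1 + |j|)^(-a)`, almost surely `ext U` is bounded from `L^s(U)` to `L^q` of the random
region for all `q > p - a (p - 2)`; for arbitrarily small `a` there is such a random choice for which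
it is almost surely bounded from `L^s(U)` to `L^p` of the random region.

(2) For every `0 < a ≤ 1` and every random choice of unit cubes with probabilities comparable to
`(1 + |j|)^(-a)`, almost surely: `ext U` is bounded from `L^s(U)`, `s ≥ 2`, to `L^q` of the random
region for all `q > 4 - 2 a`; it is not bounded from `L²(U)` for `0 < q < 4 - 2 a`; it is not bounded
from any `L^s(U)` for `0 < q < 3 - a`. -/
theorem result (U : Set (E 2)) (hUm : MeasurableSet U) (hU : U ⊆ ball 0 (1 / 2))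
    (hUi : (interior U).Nonempty) :
    (∀ (s : ℝ≥0∞) (p : ℝ), 2 ≤ s → 2 < p →
      ((∀ q, p < q → Bounded U s q univ) → Local U s p) ∧ List.TFAE [
      Local U s p,
      ∀ a : ℝ, 0 < a → a ≤ 1 → ∀ (Ω : Type) [MeasurableSpace Ω] (P : Measure Ω)
        [IsProbabilityMeasure P] (A : (Fin 3 → ℤ) → Set Ω), RandomCubes P A a →
        ∀ᵐ ω ∂P, ∀ q, p - a * (p - 2) < q → Bounded U s q (region A ω),
      ∀ ε : ℝ, 0 < ε → ∃ a : ℝ, 0 < a ∧ a ≤ 1 ∧ a < ε ∧ ∃ (Ω : Type) (_ : MeasurableSpace Ω)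
        (P : Measure Ω) (_ : IsProbabilityMeasure P) (A : (Fin 3 → ℤ) → Set Ω),
        RandomCubes P A a ∧ ∀ᵐ ω ∂P, Bounded U s p (region A ω)]) ∧
    ∀ a : ℝ, 0 < a → a ≤ 1 → ∀ (Ω : Type) [MeasurableSpace Ω] (P : Measure Ω)
      [IsProbabilityMeasure P] (A : (Fin 3 → ℤ) → Set Ω), RandomCubes P A a → ∀ᵐ ω ∂P,
      (∀ (s : ℝ≥0∞) (q : ℝ), 2 ≤ s → 4 - 2 * a < q → Bounded U s q (region A ω)) ∧
      (∀ q, 0 < q → q < 4 - 2 * a → ¬ Bounded U 2 q (region A ω)) ∧
      (∀ (s : ℝ≥0∞) (q : ℝ), 0 < q → q < 3 - a → ¬ Bounded U s q (region A ω)) := by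
  have hcub : U ⊆ Pool.Agent.N248.RR.cub 2 := by
    intro x hx i
    have h1 : ‖x‖ < 1 / 2 := by simpa using hU hx
    have h2 : |x i| ≤ ‖x‖ := PiLp.norm_apply_le x i
    linarith
  obtain ⟨ξ₀, hξ₀⟩ := hUi
  obtain ⟨ε, hε, hεU⟩ := Metric.isOpen_iff.1 isOpen_interior ξ₀ hξ₀
  have hcap : Pool.Agent.N248.RR.cap ξ₀ (ε / 4) ⊆ U := by
    intro ξ hξ
    refine interior_subset (hεU ?_)
    rw [mem_ball, dist_eq_norm, EuclideanSpace.norm_eq, Fin.sum_univ_two]
    have h1 := hξ 0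
    have h2 := hξ 1
    have h3 : √(‖(ξ - ξ₀) 0‖ ^ 2 + ‖(ξ - ξ₀) 1‖ ^ 2) ≤ √((ε / 2) ^ 2) := by
      refine Real.sqrt_le_sqrt ?_
      have a1 : ‖(ξ - ξ₀) 0‖ ^ 2 ≤ (ε / 4) ^ 2 :=
        pow_le_pow_left₀ (norm_nonneg _) (by rw [Real.norm_eq_abs]; exact h1) 2
      have a2 : ‖(ξ - ξ₀) 1‖ ^ 2 ≤ (ε / 4) ^ 2 :=
        pow_le_pow_left₀ (norm_nonneg _) (by rw [Real.norm_eq_abs]; exact h2) 2
      nlinarith
    rw [Real.sqrt_sq (by positivity)] at h3
    linarith
  simp_rw [bdd_iff, local_iff]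
  refine ⟨?_, ?_⟩
  · intro s p hs hp
    refine ⟨Pool.Agent.N248.RL.loc_of_glob_U (-1) U hUm hcub s hs p (by linarith), ?_⟩
    tfae_have 1 → 2 := by
      intro h a ha ha1 Ω _ P _ A hA
      exact Pool.Agent.N248.RL.para_loc (by norm_num) (-1) (by norm_num) U hUm hcub P A a
        ha ha1 (cubes_iff.1 hA) s hs p hp.le h
    tfae_have 2 → 3 := by
      intro h ε hε
      have ha : 0 < min 1 (ε / 2) := lt_min one_pos (by linarith)
      refine ⟨min 1 (ε / 2), ha, min_le_left _ _, (min_le_right _ _).trans_lt (by linarith), ?_⟩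
      obtain ⟨Ω, mΩ, P, hP, A, hA⟩ := Pool.Agent.N248.RL.exists_cubes 3 _ ha
      refine ⟨Ω, mΩ, P, hP, A, cubes_iff.2 hA, ?_⟩
      filter_upwards [h _ ha (min_le_left _ _) Ω P A (cubes_iff.2 hA)] with ω hω
      refine hω p ?_
      have : 0 < min 1 (ε / 2) * (p - 2) := mul_pos ha (by linarith)
      linarith
    tfae_have 3 → 1 := by
      intro h ε hε
      obtain ⟨a, ha, ha1, haε, Ω, mΩ, P, hP, A, hA, hb⟩ := h ε hε
      obtain ⟨C, hC0, hC⟩ := Pool.Agent.N248.RL.conv (-1) U hcub P A a ha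
        (cubes_iff.1 hA) s (le_trans (by norm_num) hs) p (by linarith) hb
      refine ⟨C, hC0, fun R hR f hf => (hC R hR f hf).trans (mul_le_mul' ?_ le_rfl)⟩
      refine ENNReal.ofReal_le_ofReal (mul_le_mul_of_nonneg_left ?_ hC0)
      exact Real.rpow_le_rpow_of_exponent_le hR haε.le
    tfae_finish
  · intro a ha ha1 Ω _ P _ A hA
    have hRC := cubes_iff.1 hA
    filter_upwards [Pool.Agent.N248.RR.bdd_two (n := 2) (by norm_num) (-1) (by norm_num) U hUm
        hcub P A a ha ha1 hRC,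
      Pool.Agent.N248.RR.not_bdd_two (n := 2) (by norm_num) (-1) U hUm ξ₀ (ε / 4)
      (by positivity) hcap P A a ha ha1 hRC,
      Pool.Agent.N248.RR.not_bdd_top (n := 2) (by norm_num) (-1) (by norm_num) U
      hcub ξ₀ (ε / 4) (by positivity) hcap P A a ha ha1 hRC] with ω h1 h2 h3
    refine ⟨fun s q hs hq => h1 s hs q ?_, fun q hq0 hq => h2 q hq0 ?_,
      fun s q hq0 hq => h3 s q hq0 ?_⟩
    · push_cast
      linarith
    · push_cast
      linarith
    · push_cast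
      linarith

end Pool.Agent.Results.MP_5ab805_an.RandomRegions
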